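import Mathlib
import Pool.Agent.KN.FIN
import Pool.Agent.KN.HSR
import Pool.Agent.KN.SHF

/-! # No infinite cluster for critical site percolation on `ℤ ^ d`, `d ≥ 3` -/

namespace Pool.Agent.Results.MP_e13933_pr.ContinuityAtCriticality

open Pool.Agent.Perc

/-- For every `d ≥ 3` (in particular for `3 ≤ d ≤ 10`), site percolation on `ℤ ^ d` at the
critical parameter satisfies `θ_d(p_c(d)) = 0`, and almost surely it has no infinite open
cluster. -/
theorem result (d : ℕ) (hd : 3 ≤ d) :
    theta d (pc d) = 0 ∧ mu d (pc d) {ω | ∃ x : Site d, (cluster ω x).Infinite} = 0 := by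
  have h0 : theta d (pc d) = 0 := by
    obtain ⟨b, K, hb, h⟩ := Pool.Agent.KN.hsr hd (⟨0, by omega⟩ : Fin d)
    exact Pool.Agent.KN.fin_of _ _ hb h
  exact ⟨h0, Pool.Agent.KN.all_finite h0⟩

end Pool.Agent.Results.MP_e13933_pr.ContinuityAtCriticality
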