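import Mathlib
import Pool.Agent.Axis.FIN
import Pool.Agent.Sink.Cor

/-! # Polynomial decay of the critical one-arm probability in every half-space -/

namespace Pool.Agent.Results.MP_e13933_pr.HalfSpaceRate

open Pool.Agent.Perc

/-- Let `d ≥ 3` and let `ν` be a nonzero real vector. There are `c, b, K > 0` such that for site
percolation on `ℤ ^ d`:

* for every `n ≥ 1` and every `p ≤ p_c + c / n ^ d`, the probability that the origin is joined to
  sup-distance `n` by an open path which stays in the half-space `-(n ^ b) ≤ ν · z` is at most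
  `K n ^ (-b)`;
* at the critical point there is almost surely no infinite open cluster in the region
  `-(‖z‖ ^ b) ≤ ν · z` (sup norm), which is larger than every half-space parallel to `0 ≤ ν · z`;
* for every `p > p_c` the probability that the origin lies in an infinite open cluster of the
  half-space `0 ≤ ν · z` is at most `K (p - p_c) ^ b`. -/
theorem result (d : ℕ) (hd : 3 ≤ d) (ν : Fin d → ℝ) (hν : ν ≠ 0) :
    ∃ c b K : ℝ, 0 < c ∧ 0 < b ∧ 0 < K ∧
      (∀ n : ℕ, 1 ≤ n → ∀ p : unitInterval, (p : ℝ) ≤ (pc d : ℝ) + c / (n : ℝ) ^ d →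
        (mu d p).real {ω | ∃ y : Site d,
          Jn Nbr (ω ∩ {z | -((n : ℝ) ^ b) ≤ ∑ k, ν k * (z k : ℝ)}) 0 y ∧
            ∃ k, (n : ℤ) ≤ |y k|} ≤ K * (n : ℝ) ^ (-b)) ∧
      mu d (pc d) {ω | ∃ x : Site d,
        {y | Jn Nbr (ω ∩ {z | -(‖z‖ ^ b) ≤ ∑ k, ν k * (z k : ℝ)}) x y}.Infinite} = 0 ∧
      ∀ p : unitInterval, pc d < p →
        (mu d p).real {ω | {y | Jn Nbr (ω ∩ {z | 0 ≤ ∑ k, ν k * (z k : ℝ)}) 0 y}.Infinite} ≤
          K * ((p : ℝ) - (pc d : ℝ)) ^ b := by
  obtain ⟨C, a, -, ha, h⟩ := Pool.Agent.Axis.all_arm hd ν hν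
  refine Pool.Agent.Sink.sinking (by omega) hν ha (C := C) fun n hn => ?_
  rw [← Pool.Agent.Sink.mu_HA]
  refine le_of_eq_of_le ?_ (h n hn)
  congr 1
  ext ω
  simp only [Set.mem_ofPred_eq, Pool.Agent.Sink.HA, Pool.Agent.Sink.lin_zero, sub_zero,
    Pi.zero_apply]
  rfl

end Pool.Agent.Results.MP_e13933_pr.HalfSpaceRate
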