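import Mathlib
import Pool.Agent.PercM.LogD
import Pool.Agent.BGN.FIN

/-! # Log-separated critical regions do not percolate, `d ≥ 3` -/

namespace Pool.Agent.Results.MP_e13933_pr.LogSeparated

open Pool.Agent.Perc Pool.Agent.PercM

/-- Let `d ≥ 3`, `q < p_c(d)` and `K` a natural number. There are `C` and `η > 0` such that the
following holds for all fields `r : ℤ ^ d → [0, 1]` and all colourings `piece` of `ℤ ^ d`.
Suppose that any two sites `x`, `y` of different colours with `r x > q` and `r y > q` are at
distance at least `C log (2 + |x|)`, and that for every colour `k`, in one of the `2 d` coordinate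
directions (`s = e * x i`) and for some level `a`, the sites of colour `k` with `r > q` satisfy
`r ≤ p_c + η`, and `r ≤ p_c` if `s > a`, while among any `K + 1` consecutive levels `s ≤ a` there
is one without such sites. If every site `x` is open with probability `r x`, independently, then
almost surely all open clusters are finite.

Example (`K = 0`): `r = p_c` outside the thin wall `|x i| ≤ C log (2 + |x|)` and `r = q` in it. -/
theorem result (d : ℕ) (hd : 3 ≤ d) (q : unitInterval) (hq : q < pc d) (K : ℕ) :
    ∃ C η : ℝ, 0 < η ∧ ∀ (r : Site d → unitInterval) (piece : Site d → ℕ),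
      (∀ x y, q < r x → q < r y → piece x ≠ piece y →
        C * Real.log (2 + (nrm x : ℝ)) ≤ (nrm (x - y) : ℝ)) →
      (∀ k, ∃ (i : Fin d) (e a : ℤ), (e = 1 ∨ e = -1) ∧
        (∀ x, q < r x → piece x = k → (r x : ℝ) ≤ (pc d : ℝ) + η) ∧
        (∀ x, q < r x → piece x = k → a < e * x i → r x ≤ pc d) ∧
        (∀ h ≤ a, ∃ j : ℕ, j ≤ K ∧ ∀ x, piece x = k → e * x i = h - j → r x ≤ q)) →
      ∀ᵐ ω ∂(law r), ∀ x, (cluster ω x).Finite :=
  logd_main (by omega) (fun i => Pool.Agent.BGN.bgn hd i) hq K

end Pool.Agent.Results.MP_e13933_pr.LogSeparated
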