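import Mathlib
import Pool.Agent.XIU.SUB
import Pool.Agent.XIU.SUP

/-! Upper bound for the percolation correlation length on both sides of the critical point. -/

open Finset MeasureTheory
open Pool.Agent.Perc Pool.Agent.PercM

namespace Pool.Agent.Results.MP_e13933_pr.XiUpper

theorem mono_bound {C C' a x : ℝ} (hC : 0 < C) (h : C ≤ C') (ha : 0 ≤ a) (hx : 0 ≤ x) :
    C * Real.exp (-(x / Real.exp (C * a))) ≤ C' * Real.exp (-(x / Real.exp (C' * a))) := by
  have h1 : C * a ≤ C' * a := mul_le_mul_of_nonneg_right h ha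
  have h2 : x / Real.exp (C' * a) ≤ x / Real.exp (C * a) :=
    div_le_div_of_nonneg_left hx (Real.exp_pos _) (Real.exp_le_exp.2 h1)
  exact mul_le_mul h (Real.exp_le_exp.2 (neg_le_neg h2)) (Real.exp_pos _).le (hC.le.trans h)

theorem result {d : ℕ} (hd : 3 ≤ d) :
    ∃ C : ℝ, 0 < C ∧ ∀ p : unitInterval, p ≠ pc d → ∀ n : ℕ,
      mu d p {ω | (cluster ω 0).Finite ∧ ∃ x ∈ cluster ω 0, ∃ i, (n : ℤ) ≤ |x i|} ≤
        ENNReal.ofReal (C * Real.exp (-(n / Real.exp (C / |(p : ℝ) - pc d| *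
          Real.log (2 / |(p : ℝ) - pc d|))))) := by
  obtain ⟨C1, hC1, h1⟩ := XIU.sub_decay (d := d) (by omega)
  obtain ⟨C2, hC2, h2⟩ := XIU.super_decay hd
  refine ⟨max C1 C2, lt_max_of_lt_left hC1, ?_⟩
  intro p hp n
  have key : ∀ C δ : ℝ, 0 < C → C ≤ max C1 C2 → 0 < δ → δ ≤ 1 →
      C * Real.exp (-((n : ℝ) / Real.exp (C / δ * Real.log (2 / δ)))) ≤
        max C1 C2 * Real.exp (-((n : ℝ) / Real.exp (max C1 C2 / δ * Real.log (2 / δ)))) := by
    intro C δ hC hCm hδ hδ1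
    have hlog : 0 ≤ Real.log (2 / δ) := by
      apply Real.log_nonneg
      rw [le_div_iff₀ hδ]; linarith
    have ha : 0 ≤ Real.log (2 / δ) / δ := div_nonneg hlog hδ.le
    have := mono_bound hC hCm ha (Nat.cast_nonneg n)
    have e : ∀ K : ℝ, K / δ * Real.log (2 / δ) = K * (Real.log (2 / δ) / δ) := by
      intro K; ring
    rw [e, e]; exact this
  have hp0 := p.2.1
  have hp1 := p.2.2
  have hq0 := (pc d).2.1
  have hq1 := (pc d).2.2
  rcases lt_or_gt_of_ne hp with hlt | hgt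
  · have hlt' : (p : ℝ) < pc d := by exact_mod_cast hlt
    have habs : |(p : ℝ) - pc d| = (pc d : ℝ) - p := by
      rw [abs_sub_comm, abs_of_pos]; linarith
    rw [habs]
    have hle : mu d p {ω | (cluster ω 0).Finite ∧ ∃ x ∈ cluster ω 0, ∃ i, (n : ℤ) ≤ |x i|} ≤
        ENNReal.ofReal (arm d n (p : ℝ)) := by
      unfold arm
      rw [← mu_trace]
      apply measure_mono
      rintro ω ⟨-, x, hx, i, hi⟩
      have hj : Jn Nbr ω 0 x := hx
      rcases hj.exit n with h3 | ⟨z, hz, h3⟩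
      · have hx2 : x ∈ (↑(box (0 : Site d) n) : Set (Site d)) := h3.mem_right.2
        have hx3 := (mem_box_zero.1 (Finset.mem_coe.1 hx2)) i
        refine ⟨x, ⟨i, le_antisymm hx3 hi⟩, ?_⟩
        rw [coe_trace]; exact h3
      · refine ⟨z, hz, ?_⟩
        rw [coe_trace]; exact h3
    refine hle.trans (ENNReal.ofReal_le_ofReal ?_)
    refine (h1 p hlt n).trans ?_
    exact key C1 _ hC1 (le_max_left _ _) (by linarith) (by linarith)
  · have hgt' : (pc d : ℝ) < p := by exact_mod_cast hgt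
    have habs : |(p : ℝ) - pc d| = (p : ℝ) - pc d := by
      rw [abs_of_pos]; linarith
    rw [habs]
    refine (h2 p hgt n).trans (ENNReal.ofReal_le_ofReal ?_)
    exact key C2 _ hC2 (le_max_right _ _) (by linarith) (by linarith)

end Pool.Agent.Results.MP_e13933_pr.XiUpper
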